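import Pool.Agent.N791.CT.K

/-!
# Primes `p` for which `F(p) + a` is also prime, and systems of linear and quadratic polynomials, for almost all `a`

The problem asks for the number of the primes `p ≤ n` with `p² + p + 1` prime. Here: the same question for the
polynomials `p² + p + a`, and for all systems of this kind, for almost all constant terms `a` (case `k = 1`,
`F_1 = X² + X`, `P = {X}` below). For all but `A / log^U x` of the `1 ≤ a ≤ A`, `A` of the order `x²`, the number of the
primes `p ≤ y` with `p² + p + a` prime is the predicted one, with the full constant and a relative error `log^(-U) x`.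

In general: the quantitative Hypothesis H, with the full constant `C_H` (the conditionally convergent product over all primes) and
with power savings in the logarithm, for systems of any number of linear and quadratic polynomials and for almost all
vectors of constant terms: the nonconstant parts `F_1, ..., F_k` are fixed and arbitrary, and only the constant terms
`a_i ≤ A_i`, `A_i` of the order of magnitude of `x ^ deg F_i`, vary. The fixed polynomial `x` may be added to the
system. The convergence of the product is part of the statement, and the formula holds for all initial segments of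
the range `n ≤ x` at once.
-/

set_option autoImplicit false

namespace Pool.Agent.Results.MP_82233c_nt.FullConstantSystems

open Finset Polynomial Filter Topology

open Classical in
/-- `π_H(y)`: the number of `1 ≤ n ≤ y` for which `|f(n)|` is prime for every `f ∈ H`. -/
noncomputable def primeCount (H : Finset ℤ[X]) (y : ℕ) : ℕ :=
  ((Icc 1 y).filter (fun n : ℕ => ∀ f ∈ H, (f.eval (n : ℤ)).natAbs.Prime)).card

open Classical in
/-- `ω_H(p)`: the number of `n ∈ {1, …, p}` with `∏ f(n) ≡ 0 (mod p)`, the product over `f ∈ H`. -/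
noncomputable def omega (H : Finset ℤ[X]) (p : ℕ) : ℕ :=
  ((Icc 1 p).filter (fun n : ℕ => (p : ℤ) ∣ ∏ f ∈ H, f.eval (n : ℤ))).card

/-- `C_H(z)`: the part of the product `C_H` over the primes `p ≤ z`. -/
noncomputable def eulerProd (H : Finset ℤ[X]) (z : ℕ) : ℝ :=
  ∏ p ∈ (Icc 1 z).filter Nat.Prime, (1 - (omega H p : ℝ) / p) / (1 - 1 / (p : ℝ)) ^ H.card

open Classical in
/-- `L_H(y)`: the sum of `1 / ∏ log |f(n)|` over the `1 ≤ n ≤ y` with `|f(n)| ≥ 2` for every `f ∈ H`. -/
noncomputable def logSum (H : Finset ℤ[X]) (y : ℕ) : ℝ :=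
  ∑ n ∈ (Icc 1 y).filter (fun n : ℕ => ∀ f ∈ H, 2 ≤ |f.eval (n : ℤ)|),
    1 / ∏ f ∈ H, Real.log |((f.eval (n : ℤ) : ℤ) : ℝ)|

open Classical in
/-- The set `H` that consists of the members of `P` and of the polynomials `F_i + a_i`. -/
noncomputable def family {k : ℕ} (P : Finset ℤ[X]) (F : Fin k → ℤ[X]) (a : Fin k → ℕ) : Finset ℤ[X] :=
  P ∪ univ.image (fun i => F i + C (a i : ℤ))

/-- The conclusion for one vector `a` of constant terms, `H = family P F a`: the polynomials are distinct; the
product `C_H` over all primes, in their natural order, converges, and for all `y ≤ x` the number `π_H(y)` is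
`C_H L_H(y)` up to an error `x / log ^ U x`; and if `H` has no fixed prime divisor, then `C_H > 0`, and for all `y`
with `x / log ^ U x ≤ y ≤ x` the relative error is at most `1 / log ^ U x`. -/
def Good {k : ℕ} (P : Finset ℤ[X]) (F : Fin k → ℤ[X]) (U x : ℕ) (a : Fin k → ℕ) : Prop :=
  (family P F a).card = P.card + k ∧
  ∃ CH : ℝ, Tendsto (fun z : ℕ => eulerProd (family P F a) z) atTop (𝓝 CH) ∧
  (∀ y : ℕ, y ≤ x → |(primeCount (family P F a) y : ℝ) - CH * logSum (family P F a) y| ≤ x / Real.log x ^ U) ∧
  ((∀ p : ℕ, p.Prime → omega (family P F a) p < p) → 0 < CH ∧ ∀ y : ℕ, (x : ℝ) / Real.log x ^ U ≤ y → y ≤ x →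
    |(primeCount (family P F a) y : ℝ) - CH * logSum (family P F a) y| ≤ CH * logSum (family P F a) y / Real.log x ^ U)

open Classical in
/-- Let `F_1, ..., F_k` be integer polynomials of degree one or two with positive leading coefficients, `P = ∅` or
`P = {X}`, `B ≥ 1` and `U`. For all large `x`: if every `A_i` is within a factor `B` of `x ^ deg F_i`, then `Good`
holds for all vectors `a`, `1 ≤ a_i ≤ A_i`, with at most `A_1 ... A_k / log ^ U x` exceptions. -/
theorem result (k : ℕ) (F : Fin k → ℤ[X])
    (hF : ∀ i, 1 ≤ (F i).natDegree ∧ (F i).natDegree ≤ 2 ∧ 0 < (F i).leadingCoeff)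
    (P : Finset ℤ[X]) (hP : P ⊆ {X}) (B : ℕ) (hB : 1 ≤ B) (U : ℕ) :
    ∃ x₀ : ℕ, ∀ x : ℕ, x₀ ≤ x → ∀ A : Fin k → ℕ,
      (∀ i, A i ≤ B * x ^ (F i).natDegree ∧ x ^ (F i).natDegree ≤ B * A i) →
      (((Fintype.piFinset (fun i => Icc 1 (A i))).filter (fun a => ¬ Good P F U x a)).card : ℝ) ≤
        (∏ i, (A i : ℝ)) / Real.log x ^ U := by
  obtain ⟨x₀, h0⟩ := Pool.Agent.N791.CT.full F (fun i => (hF i).1) (fun i => (hF i).2.1) (fun i => (hF i).2.2) P hP B hB U
  refine ⟨x₀, fun x hx A hA => ?_⟩
  obtain ⟨S, hS1, hS2⟩ := h0 x hx A hA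
  refine le_trans ?_ hS1
  have : ((Fintype.piFinset (fun i => Icc 1 (A i))).filter (fun a => ¬ Good P F U x a)) ⊆ S := by
    intro a ha
    rw [mem_filter] at ha
    by_contra haS
    exact ha.2 (hS2 a ha.1 haS)
  exact_mod_cast card_le_card this

end Pool.Agent.Results.MP_82233c_nt.FullConstantSystems
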