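import Pool.Agent.N798.S2.All

/-!
# Prime values of almost all multiples of polynomials at prime arguments

Let `P_0, …, P_{k-1}` be real polynomials of positive degrees `d_i` with positive leading coefficients, for
instance `k = 1` and `x^2 + x + 1`.  For almost every `(α_0, …, α_{k-1})` in `(0, ∞)^k` all the integers
`⌊α_i P_i(p)⌋ + b_i` are prime for `~ N / (∏ d_i · (log N)^{k+1})` of the primes `p ≤ N`, for all choices of the
integer shifts `b_i`, and the number of these `p` differs from the expected number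
`∑_{2 ≤ n ≤ N} (1 / log n) ∏ 1 / log (α_i P_i(n))` by `o(N / (log N)^K)` for every `K`.  Consequently the same is
true for almost every choice of all the real coefficients of `k` polynomials of given degrees.
-/

namespace Pool.Agent.Results.MP_82233c_nt.MetricPrimeArguments

open Finset MeasureTheory Filter Topology Polynomial

/-- the number of primes `p ≤ N` for which all the integers `⌊α_i P_i(p)⌋ + b_i` are primes -/
noncomputable def polyCount {k : ℕ} (P : Fin k → ℝ[X]) (b : Fin k → ℤ) (α : Fin k → ℝ) (N : ℕ) : ℕ :=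
  #((Icc 1 N).filter fun p : ℕ => p.Prime ∧ ∀ i, (⌊α i * (P i).eval (p : ℝ)⌋ + b i).toNat.Prime)

/-- the expected number (the term `n = 1` is zero: in Lean `1 / log 1 = 1 / 0 = 0`) -/
noncomputable def polyMain {k : ℕ} (P : Fin k → ℝ[X]) (α : Fin k → ℝ) (N : ℕ) : ℝ :=
  ∑ n ∈ Icc 1 N, 1 / Real.log n * ∏ i, 1 / Real.log (α i * (P i).eval (n : ℝ))

/-- the value at `x` of the polynomial with the coefficients `a_0, …, a_D` -/
noncomputable def val {D : ℕ} (a : Fin (D + 1) → ℝ) (x : ℝ) : ℝ := ∑ j, a j * x ^ (j : ℕ)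

/-- the number of primes `p ≤ N` for which all the integers `⌊f_i(p)⌋ + b_i` are primes, where `f_i` is the
polynomial of degree `d_i` with the coefficients `a_i` -/
noncomputable def coeffCount {k : ℕ} (d : Fin k → ℕ) (a : (i : Fin k) → Fin (d i + 1) → ℝ) (b : Fin k → ℤ)
    (N : ℕ) : ℕ :=
  #((Icc 1 N).filter fun p : ℕ => p.Prime ∧ ∀ i, (⌊val (a i) p⌋ + b i).toNat.Prime)

/-- the expected number -/
noncomputable def coeffMain {k : ℕ} (d : Fin k → ℕ) (a : (i : Fin k) → Fin (d i + 1) → ℝ) (N : ℕ) : ℝ :=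
  ∑ n ∈ Icc 1 N, 1 / Real.log n * ∏ i, 1 / Real.log (val (a i) n)

/-- the number of primes `p ≤ N` for which `⌊α (p² + p + 1)⌋ + b` is a prime -/
noncomputable def pairCount (b : ℤ) (α : ℝ) (N : ℕ) : ℕ :=
  #((Icc 1 N).filter fun p : ℕ => p.Prime ∧ (⌊α * ((p : ℝ) ^ 2 + p + 1)⌋ + b).toNat.Prime)

lemma ratio {k : ℕ} (x : ℕ → ℝ) (d : Fin k → ℝ) (hd : ∀ i, 0 < d i)
    (h : Tendsto (fun N : ℕ => x N * (Real.log N) ^ (1 + k) / N) atTop (𝓝 (∏ i, 1 / d i))) :
    Tendsto (fun N : ℕ => x N / (N / (Real.log N * ∏ i, (d i * Real.log N)))) atTop (𝓝 1) := by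
  have hP : 0 < ∏ i, d i := Finset.prod_pos fun i _ => hd i
  have h1 := h.mul_const (∏ i, d i)
  have e1 : (∏ i, 1 / d i) * ∏ i, d i = 1 := by
    rw [← Finset.prod_mul_distrib]
    refine Finset.prod_eq_one fun i _ => ?_
    rw [one_div, inv_mul_cancel₀ (hd i).ne']
  rw [e1] at h1
  refine h1.congr fun N => ?_
  rw [Finset.prod_mul_distrib, Finset.prod_const, Finset.card_univ, Fintype.card_fin, div_div_eq_mul_div]
  ring

/-- **Prime values of almost all multiples of given polynomials, and of almost all real polynomials, at prime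
arguments.** -/
theorem result :
    (∀ (k : ℕ) (P : Fin k → ℝ[X]), (∀ i, 0 < (P i).natDegree) → (∀ i, 0 < (P i).leadingCoeff) →
      ∀ᵐ α : Fin k → ℝ, (∀ i, 0 < α i) → ∀ b : Fin k → ℤ,
        Tendsto (fun N : ℕ => (polyCount P b α N : ℝ) / (N / (Real.log N * ∏ i, ((P i).natDegree * Real.log N))))
          atTop (𝓝 1) ∧
        ∀ K : ℕ, Tendsto (fun N : ℕ => |(polyCount P b α N : ℝ) - polyMain P α N| / (N / (Real.log N) ^ K))
          atTop (𝓝 0)) ∧
    (∀ (k : ℕ) (d : Fin k → ℕ), (∀ i, 0 < d i) →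
      ∀ᵐ a : (i : Fin k) → Fin (d i + 1) → ℝ, (∀ i, 0 < a i (Fin.last (d i))) → ∀ b : Fin k → ℤ,
        Tendsto (fun N : ℕ => (coeffCount d a b N : ℝ) / (N / (Real.log N * ∏ i, (d i * Real.log N)))) atTop (𝓝 1) ∧
        ∀ K : ℕ, Tendsto (fun N : ℕ => |(coeffCount d a b N : ℝ) - coeffMain d a N| / (N / (Real.log N) ^ K))
          atTop (𝓝 0)) ∧
    (∀ᵐ α : ℝ, 0 < α → ∀ b : ℤ,
        Tendsto (fun N : ℕ => (pairCount b α N : ℝ) / (N / (2 * (Real.log N) ^ 2))) atTop (𝓝 1)) := by
  have h1 : ∀ (k : ℕ) (P : Fin k → ℝ[X]), (∀ i, 0 < (P i).natDegree) → (∀ i, 0 < (P i).leadingCoeff) →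
      ∀ᵐ α : Fin k → ℝ, (∀ i, 0 < α i) → ∀ b : Fin k → ℤ,
        Tendsto (fun N : ℕ => (polyCount P b α N : ℝ) / (N / (Real.log N * ∏ i, ((P i).natDegree * Real.log N))))
          atTop (𝓝 1) ∧
        ∀ K : ℕ, Tendsto (fun N : ℕ => |(polyCount P b α N : ℝ) - polyMain P α N| / (N / (Real.log N) ^ K))
          atTop (𝓝 0) := by
    intro k P hd hP
    filter_upwards [Pool.Agent.N798.S2.main_poly Pool.Agent.N798.S2.phpP Pool.Agent.N798.S2.pnP P hP hd] with α hα hpos b
    obtain ⟨h2, h3⟩ := hα hpos b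
    refine ⟨ratio (fun N => (polyCount P b α N : ℝ)) (fun i => ((P i).natDegree : ℝ))
      (fun i => by exact_mod_cast hd i) h2, fun K => ?_⟩
    refine (h3 K).congr fun N => ?_
    rw [div_div_eq_mul_div]
    change _ * |(polyCount P b α N : ℝ) - polyMain P α N| = _
    ring
  refine ⟨h1, ?_, ?_⟩
  · intro k d hd
    filter_upwards [Pool.Agent.N798.S2.main_all Pool.Agent.N798.S2.phpP Pool.Agent.N798.S2.pnP d hd] with a ha hpos b
    obtain ⟨h2, h3⟩ := ha hpos b
    refine ⟨ratio (fun N => (coeffCount d a b N : ℝ)) (fun i => (d i : ℝ)) (fun i => by exact_mod_cast hd i) h2,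
      fun K => ?_⟩
    refine (h3 K).congr fun N => ?_
    rw [div_div_eq_mul_div]
    change _ * |(coeffCount d a b N : ℝ) - coeffMain d a N| = _
    ring
  · have e0 : (X ^ 2 + (X + C 1) : ℝ[X]).natDegree = 2 ∧ (X ^ 2 + (X + C 1) : ℝ[X]).leadingCoeff = 1 := by
      have hm : (X ^ 2 + (X + C 1) : ℝ[X]).Monic := Polynomial.monic_X_pow_add (by
        rw [Polynomial.degree_X_add_C]; norm_num)
      refine ⟨?_, hm.leadingCoeff⟩
      have h5 : (X ^ 2 + (X + C 1) : ℝ[X]).degree = (2 : ℕ) := by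
        rw [Polynomial.degree_add_eq_left_of_degree_lt (by
          rw [Polynomial.degree_X_pow, Polynomial.degree_X_add_C]; norm_num), Polynomial.degree_X_pow]
      exact Polynomial.natDegree_eq_of_degree_eq_some h5
    have h4 := h1 1 (fun _ => X ^ 2 + (X + C 1)) (fun _ => e0.1.symm ▸ two_pos) (fun _ => e0.2.symm ▸ one_pos)
    have h6 := (MeasureTheory.volume_preserving_funUnique (Fin 1) ℝ).symm.quasiMeasurePreserving.ae h4
    filter_upwards [h6] with α hα hpos b
    obtain ⟨h7, -⟩ := hα (fun _ => hpos) (fun _ => b)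
    refine h7.congr fun N => ?_
    congr 1
    · unfold polyCount pairCount
      congr 2
      refine Finset.filter_congr fun p _ => ?_
      have h8 : ((MeasurableEquiv.funUnique (Fin 1) ℝ).symm α : Fin 1 → ℝ) 0 = α := rfl
      simp only [Fin.forall_fin_one, h8, eval_add, eval_pow, eval_X, eval_C, add_assoc]
    · rw [Fin.prod_univ_one, e0.1]
      congr 1
      push_cast
      ring

end Pool.Agent.Results.MP_82233c_nt.MetricPrimeArguments
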