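import Mathlib
import Pool.Agent.N957.SQ.Pair3
import Pool.Agent.N740.HK.Sch

/-!
# Primes `p` with `p² + p + 1` prime in the sieved sequential random models of the primes

The integers are decided one after the other; the multiples of the primes of a finite set `Q` are never
chosen and the conditional probability of choosing an integer `n + 1` which is not such a multiple,
given the decisions up to `n`, is asymptotic to `∏_{p ∈ Q} (1 - 1 / p)⁻¹ / log n`, almost surely.  No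
independence and no rate of convergence are assumed.

In every such model, almost surely, the number of `p ≤ n` with `p` and `p² + p + 1` chosen is asymptotic to
`H_Q n / log² n`, where `H_Q` is the product `H` of the problem restricted to the primes of `Q`, and the largest
gaps between these `p` are exactly of size `(1 / H_Q) log³ p`.  The same holds, with the corresponding constants,
for all integer polynomials `f` of degree at least `2` with positive leading coefficient, without a fixed divisor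
of `x f(x)` in `Q`, at once.
-/

set_option autoImplicit false

open MeasureTheory Filter Set ProbabilityTheory Polynomial
open scoped Topology

namespace Pool.Agent.Results.MP_82233c_nt.PairsSievedModels

variable {Ω : Type}

/-- `A n` is the event that `n` is chosen; adapted to `ℱ`; multiples of the primes in `Q` are not
chosen; the conditional probability of `A (n + 1)` given `ℱ n`, times `log n`, tends almost surely to
`∏_{p ∈ Q} (1 - 1 / p)⁻¹` along the `n` such that no `p ∈ Q` divides `n + 1` -/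
def SievedModel [m : MeasurableSpace Ω] (μ : Measure Ω) (ℱ : Filtration ℕ m) (A : ℕ → Set Ω)
    (Q : Finset ℕ) : Prop :=
  (∀ n, MeasurableSet[ℱ n] (A n)) ∧ (∀ n, (∃ p ∈ Q, p ∣ n) → A n = ∅) ∧
  ∀ᵐ ω ∂μ, Tendsto (fun n : ℕ => (μ[(A (n + 1)).indicator (fun _ => (1 : ℝ)) | ℱ n]) ω * Real.log n)
    (atTop ⊓ 𝓟 {n : ℕ | ∀ p ∈ Q, ¬ p ∣ n + 1}) (𝓝 (∏ p ∈ Q, (1 - 1 / (p : ℝ))⁻¹))

/-- The independent sieved model: independent events, no multiple of a `p ∈ Q` is chosen, all other large `n` are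
chosen with probability `∏_{p ∈ Q} (1 - 1 / p)⁻¹ / log n`. -/
def IndependentModel [MeasurableSpace Ω] (μ : Measure Ω) (A : ℕ → Set Ω) (Q : Finset ℕ) : Prop :=
  (∀ n, MeasurableSet (A n)) ∧ iIndepSet A μ ∧ (∀ n, (∃ p ∈ Q, p ∣ n) → A n = ∅) ∧
  ∀ᶠ n : ℕ in atTop, (∀ p ∈ Q, ¬ p ∣ n) → μ (A n) = ENNReal.ofReal ((∏ p ∈ Q, (1 - 1 / (p : ℝ))⁻¹) / Real.log n)

open Classical in
/-- The random sieve of Hawkins: `2` is chosen, and given the decisions up to `n ≥ 2` the number
`n + 1` is chosen with probability `∏ (1 - 1 / h)`, the product over the chosen `2 ≤ h ≤ n`. -/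
def HawkinsSieve [m : MeasurableSpace Ω] (μ : Measure Ω) (ℱ : Filtration ℕ m) (A : ℕ → Set Ω) : Prop :=
  (∀ n, MeasurableSet[ℱ n] (A n)) ∧ A 2 = univ ∧
  ∀ n, 2 ≤ n → μ[(A (n + 1)).indicator (fun _ => (1 : ℝ)) | ℱ n] =ᵐ[μ]
    fun ω => ∏ h ∈ Finset.Icc 2 n, if ω ∈ A h then 1 - 1 / (h : ℝ) else 1

/-- `P_n(p, p² + p + 1)`, with the set `S` in place of the primes -/
noncomputable def P (S : Set ℕ) (n : ℕ) : ℕ := {p : ℕ | p ≤ n ∧ p ∈ S ∧ p ^ 2 + p + 1 ∈ S}.ncard

/-- `χ(p) = -1, 0, 1` according as `p ≡ -1, 0, 1` modulo `3` -/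
noncomputable def chi (p : ℕ) : ℝ := if p % 3 = 1 then 1 else if p % 3 = 2 then -1 else 0

/-- the product `H` of the problem, restricted to the primes of `Q` -/
noncomputable def H (Q : Finset ℕ) : ℝ :=
  1 / 2 * ∏ p ∈ Q, ((1 - 1 / (p : ℝ)) ^ 2)⁻¹ * (1 - (2 + chi p) / p)

/-- the `p` with `p` and `p² + p + 1` in `S` -/
def pairs (S : Set ℕ) : Set ℕ := {p : ℕ | p ∈ S ∧ p ^ 2 + p + 1 ∈ S}

/-- the `k` with `k` and `f(k)` in `S` -/
def args (S : Set ℕ) (f : ℤ[X]) : Set ℕ := {k | k ∈ S ∧ ∃ q ∈ S, (q : ℤ) = f.eval (k : ℤ)}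

/-- the number of `0 ≤ r < p` with `p ∣ r f(r)` -/
noncomputable def omega (f : ℤ[X]) (p : ℕ) : ℕ := {r : ℕ | r < p ∧ (p : ℤ) ∣ (r : ℤ) * f.eval (r : ℤ)}.ncard

/-- the constant of Bateman and Horn for `x` and `f(x)`, restricted to the primes of `Q` -/
noncomputable def const (Q : Finset ℕ) (f : ℤ[X]) : ℝ :=
  (∏ p ∈ Q, (1 - (omega f p : ℝ) / p) / (1 - 1 / (p : ℝ)) ^ 2) / f.natDegree

/-- the member number `j` (from zero) of a set of natural numbers -/
noncomputable def member (K : Set ℕ) (j : ℕ) : ℕ := Nat.nth (· ∈ K) j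

open Pool.Agent.N740.HK Pool.Agent.R528.RM Pool.Agent.N285.GP

lemma prod_inv (A : ℕ → Set Ω) (n : ℕ) (ω : Ω) [DecidablePred fun h => ω ∈ A h] :
    (∏ h ∈ Finset.Icc 2 n, if ω ∈ A h then 1 - 1 / (h : ℝ) else 1) = (Y A n ω)⁻¹ := by
  unfold Y
  rw [← Finset.prod_inv_distrib]
  refine Finset.prod_congr rfl fun h hh => ?_
  have h2 : (2 : ℝ) ≤ h := by exact_mod_cast (Finset.mem_Icc.1 hh).1
  by_cases hA : ω ∈ A h
  · rw [if_pos hA, if_pos hA, inv_div]
    field_simp
  · rw [if_neg hA, if_neg hA, inv_one]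

lemma prod_pos' (Q : Finset ℕ) (hQ : ∀ p ∈ Q, p.Prime) : 0 < ∏ p ∈ Q, (1 - 1 / (p : ℝ))⁻¹ := by
  refine Finset.prod_pos fun p hp => ?_
  have h1 : (1 : ℝ) < p := by exact_mod_cast (hQ p hp).one_lt
  rw [inv_pos, sub_pos, div_lt_one (by linarith)]
  exact h1

lemma indep_sieved [m : MeasurableSpace Ω] (μ : Measure Ω) [IsProbabilityMeasure μ] (A : ℕ → Set Ω)
    (Q : Finset ℕ) (hQ : ∀ p ∈ Q, p.Prime) (h : IndependentModel μ A Q) :
    ∃ ℱ : Filtration ℕ m, SievedModel μ ℱ A Q := by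
  obtain ⟨hA, hi, hz, hp⟩ := h
  refine ⟨gen hA, gen_meas hA, hz, ?_⟩
  have h1 : ∀ᵐ ω ∂μ, ∀ n, (μ[(A (n + 1)).indicator (fun _ => (1 : ℝ)) | gen hA n]) ω =
      (μ (A (n + 1))).toReal := ae_all_iff.2 fun n => dens_gen hA hi n
  filter_upwards [h1] with ω hω
  set c : ℝ := ∏ p ∈ Q, (1 - 1 / (p : ℝ))⁻¹ with hc
  have hc0 : 0 < c := prod_pos' Q hQ
  have h2 : Tendsto (fun n : ℕ => c * (Real.log ((n + 1 : ℕ) : ℝ) / Real.log n)⁻¹) atTop (𝓝 (c * 1⁻¹)) :=
    ((log_shift 1).inv₀ one_ne_zero).const_mul c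
  rw [inv_one, mul_one] at h2
  refine (h2.mono_left (inf_le_left : atTop ⊓ 𝓟 {n : ℕ | ∀ p ∈ Q, ¬ p ∣ n + 1} ≤ atTop)).congr' ?_
  rw [EventuallyEq, eventually_inf_principal]
  filter_upwards [eventually_ge_atTop 2, (tendsto_add_atTop_nat 1).eventually hp] with n hn hpn hn2
  rw [hω, hpn hn2, ENNReal.toReal_ofReal]
  · rw [inv_div]
    ring
  · exact div_nonneg hc0.le (Real.log_natCast_nonneg _)

/-! ### constants -/

lemma omega_eq' (f : ℤ[X]) (hf : 2 ≤ f.natDegree) (p : ℕ) : omegaF {X, f} p = omega f p := by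
  unfold omegaF omega
  simp_rw [Finset.prod_pair (Pool.Agent.N957.SQ.Pr.X_ne hf), Polynomial.eval_X]

lemma omega_mul (f : ℤ[X]) (p : ℕ) : Pool.Agent.N285.GP.omega (X * f) p = omega f p := by
  unfold Pool.Agent.N285.GP.omega omega
  simp_rw [Polynomial.eval_mul, Polynomial.eval_X]

lemma bh_const (Q : Finset ℕ) (hQ : ∀ p ∈ Q, p.Prime) (f : ℤ[X]) (hf : 2 ≤ f.natDegree) :
    bhConst (∏ p ∈ Q, p) {X, f} = const Q f := by
  unfold bhConst const
  rw [← mul_assoc, const_prod {X, f} Q hQ, Finset.prod_pair (Pool.Agent.N957.SQ.Pr.X_ne hf), natDegree_X,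
    Nat.cast_one, inv_one, one_mul, ← div_eq_mul_inv]
  congr 1
  refine Finset.prod_congr rfl fun p hp => ?_
  have h4 := omega_good {X, f} (hQ p hp)
  rw [omega_eq' f hf] at h4
  have h5 : (Nat.count (good {X, f} p) p : ℝ) + omega f p = p := by exact_mod_cast h4
  have h6 : (0 : ℝ) < p := by exact_mod_cast (hQ p hp).pos
  have h7 : (Nat.count (good {X, f} p) p : ℝ) / p = 1 - (omega f p : ℝ) / p := by
    field_simp
    linarith
  rw [h7, Finset.card_pair (Pool.Agent.N957.SQ.Pr.X_ne hf), inv_pow]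
  exact (div_eq_mul_inv _ _).symm

lemma const_pos (Q : Finset ℕ) (hQ : ∀ p ∈ Q, p.Prime) (f : ℤ[X]) (hf : 2 ≤ f.natDegree)
    (h : ∀ p ∈ Q, ∃ r : ℤ, ¬ (p : ℤ) ∣ r * f.eval r) : 0 < const Q f := by
  unfold const
  refine div_pos (Finset.prod_pos fun p hp => ?_) (by exact_mod_cast (show 0 < f.natDegree by omega))
  have h1 := CQ_pos {p} (fun q hq => by rw [Finset.mem_singleton.1 hq]; exact hQ p hp) (X * f) (fun q hq => by
    rw [Finset.mem_singleton.1 hq]
    obtain ⟨r, hr⟩ := h p hp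
    exact ⟨r, by rw [Polynomial.eval_mul, Polynomial.eval_X]; exact hr⟩)
  unfold CQ at h1
  rw [Finset.prod_singleton, omega_mul] at h1
  have h2 : (1 : ℝ) < p := by exact_mod_cast (hQ p hp).one_lt
  have h3 : 0 < 1 - 1 / (p : ℝ) := by
    rw [sub_pos, div_lt_one (by linarith)]
    exact h2
  have h4 : 0 < 1 - (omega f p : ℝ) / p := by
    rcases (div_pos_iff.1 h1) with h | h
    · exact h.1
    · linarith [h.2]
  exact div_pos h4 (by positivity)

/-! ### counting -/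

/-- the number of the `k ≤ x` in `args S f` -/
noncomputable def values (S : Set ℕ) (f : ℤ[X]) (x : ℕ) : ℕ := {k : ℕ | k ≤ x ∧ k ∈ args S f}.ncard

lemma values_close (S : Set ℕ) (f : ℤ[X]) (x : ℕ) :
    values S f x ≤ polyCount S {X, f} x + 1 ∧ polyCount S {X, f} x ≤ values S f x + 1 := by
  have h1 : ({k : ℕ | k ≤ x ∧ k ∈ args S f}).Finite := (Set.finite_Iic x).subset fun k hk => hk.1
  have h2 : ({n : ℕ | n < x ∧ ∀ g ∈ ({X, f} : Finset ℤ[X]), ∃ a ∈ S, (a : ℤ) = g.eval (n : ℤ)}).Finite :=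
    (Set.finite_Iio x).subset fun k hk => hk.1
  constructor
  · have h3 : {k : ℕ | k ≤ x ∧ k ∈ args S f} ⊆
        insert x {n : ℕ | n < x ∧ ∀ g ∈ ({X, f} : Finset ℤ[X]), ∃ a ∈ S, (a : ℤ) = g.eval (n : ℤ)} := by
      rintro k ⟨hk, hk1, hk2⟩
      rcases hk.lt_or_eq with h | h
      · right
        refine ⟨h, fun g hg => ?_⟩
        rw [Finset.mem_insert, Finset.mem_singleton] at hg
        rcases hg with rfl | rfl
        · exact ⟨k, hk1, by rw [Polynomial.eval_X]⟩
        · exact hk2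
      · left
        exact h
    exact (Set.ncard_le_ncard h3 (h2.insert x)).trans (Set.ncard_insert_le _ _)
  · have h3 : {n : ℕ | n < x ∧ ∀ g ∈ ({X, f} : Finset ℤ[X]), ∃ a ∈ S, (a : ℤ) = g.eval (n : ℤ)} ⊆
        {k : ℕ | k ≤ x ∧ k ∈ args S f} := by
      rintro k ⟨hk, hk2⟩
      obtain ⟨a, ha, ha2⟩ := hk2 X (by simp)
      rw [Polynomial.eval_X] at ha2
      have : a = k := by exact_mod_cast ha2
      rw [this] at ha
      exact ⟨hk.le, ha, hk2 f (by simp)⟩
    exact (Set.ncard_le_ncard h3 h1).trans (Nat.le_succ _)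

lemma log_sq_div : Tendsto (fun x : ℕ => Real.log x ^ 2 / x) atTop (𝓝 0) :=
  ((Real.isLittleO_pow_log_id_atTop (n := 2)).tendsto_div_nhds_zero).comp tendsto_natCast_atTop_atTop

lemma values_law {S : Set ℕ} {f : ℤ[X]} {c : ℝ}
    (h : Tendsto (fun x : ℕ => (polyCount S {X, f} x : ℝ) * Real.log x ^ 2 / x) atTop (𝓝 c)) :
    Tendsto (fun x : ℕ => (values S f x : ℝ) * Real.log x ^ 2 / x) atTop (𝓝 c) := by
  have h1 : Tendsto (fun x : ℕ => ((values S f x : ℝ) - polyCount S {X, f} x) * (Real.log x ^ 2 / x)) atTop (𝓝 0) := by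
    refine squeeze_zero_norm (fun x => ?_) log_sq_div
    have hc := values_close S f x
    have h2 : (values S f x : ℝ) ≤ polyCount S {X, f} x + 1 := by exact_mod_cast hc.1
    have h3 : (polyCount S {X, f} x : ℝ) ≤ values S f x + 1 := by exact_mod_cast hc.2
    have h4 : 0 ≤ Real.log (x : ℝ) ^ 2 / x := div_nonneg (sq_nonneg _) (Nat.cast_nonneg x)
    rw [norm_mul, Real.norm_of_nonneg h4]
    have h5 : ‖(values S f x : ℝ) - polyCount S {X, f} x‖ ≤ 1 := by
      rw [Real.norm_eq_abs, abs_le]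
      constructor <;> linarith
    calc _ ≤ 1 * (Real.log (x : ℝ) ^ 2 / x) := mul_le_mul_of_nonneg_right h5 h4
      _ = _ := one_mul _
  have h2 := h.add h1
  rw [add_zero] at h2
  refine h2.congr fun x => ?_
  ring

/-! ### the polynomial of the problem -/

/-- the polynomial of the problem -/
noncomputable def f₀ : ℤ[X] := X ^ 2 + X + 1

lemma f₀_eval (k : ℤ) : f₀.eval k = k ^ 2 + k + 1 := by
  simp [f₀]

lemma f₀_deg : f₀.natDegree = 2 := by
  unfold f₀
  compute_degree!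

lemma f₀_lead : f₀.leadingCoeff = 1 := by
  unfold Polynomial.leadingCoeff
  rw [f₀_deg]
  unfold f₀
  simp [coeff_X, coeff_one]

lemma args_f₀ (S : Set ℕ) : args S f₀ = pairs S := by
  ext k
  simp only [args, pairs, mem_ofPred_eq, f₀_eval]
  constructor
  · rintro ⟨h1, q, hq, hq2⟩
    refine ⟨h1, ?_⟩
    have : q = k ^ 2 + k + 1 := by
      have : (q : ℤ) = ((k ^ 2 + k + 1 : ℕ) : ℤ) := by rw [hq2]; push_cast; ring
      exact_mod_cast this
    rwa [← this]
  · rintro ⟨h1, h2⟩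
    exact ⟨h1, k ^ 2 + k + 1, h2, by push_cast; ring⟩

lemma P_eq (S : Set ℕ) (x : ℕ) : P S x = values S f₀ x := by
  unfold P values
  rw [args_f₀]
  rfl

lemma omega_f₀ {p : ℕ} (hp : p.Prime) : (omega f₀ p : ℝ) = 2 + chi p := by
  unfold omega
  simp_rw [f₀_eval]
  rw [Pool.Agent.N957.SQ.Pr.roots_count hp]
  unfold chi
  by_cases h3 : p = 3
  · subst h3
    norm_num
  · rw [if_neg h3]
    by_cases h1 : p % 3 = 1
    · rw [if_pos h1, if_pos h1]
      norm_num
    · rw [if_neg h1, if_neg h1]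
      have h0 : p % 3 ≠ 0 := by
        intro h
        have := (Nat.prime_dvd_prime_iff_eq Nat.prime_three hp).1 (Nat.dvd_of_mod_eq_zero h)
        exact h3 this.symm
      rw [if_pos (show p % 3 = 2 by omega)]
      norm_num

lemma const_f₀ (Q : Finset ℕ) (hQ : ∀ p ∈ Q, p.Prime) : const Q f₀ = H Q := by
  unfold const H
  rw [f₀_deg]
  have : ∏ p ∈ Q, (1 - (omega f₀ p : ℝ) / p) / (1 - 1 / (p : ℝ)) ^ 2 =
      ∏ p ∈ Q, ((1 - 1 / (p : ℝ)) ^ 2)⁻¹ * (1 - (2 + chi p) / p) := by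
    refine Finset.prod_congr rfl fun p hp => ?_
    rw [omega_f₀ (hQ p hp), div_eq_mul_inv, mul_comm]
  rw [this]
  push_cast
  ring

lemma f₀_fixed (Q : Finset ℕ) (hQ : ∀ p ∈ Q, p.Prime) : ∀ p ∈ Q, ∃ r : ℤ, ¬ (p : ℤ) ∣ r * f₀.eval r := by
  intro p hp
  have hpp := hQ p hp
  rcases Nat.lt_or_ge 3 p with h | h
  · refine ⟨1, fun hd => ?_⟩
    rw [f₀_eval] at hd
    norm_num at hd
    have h2 : p ∣ 3 := by exact_mod_cast hd
    have := Nat.le_of_dvd (by norm_num) h2
    omega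
  · have h2 := hpp.two_le
    interval_cases p
    · exact ⟨1, by rw [f₀_eval]; norm_num⟩
    · exact ⟨2, by rw [f₀_eval]; norm_num⟩

end Pool.Agent.Results.MP_82233c_nt.PairsSievedModels

open Pool.Agent.Results.MP_82233c_nt.PairsSievedModels
open Pool.Agent.R528.RM (totient_prod bh_final)

/-- The independent sieved model is a sieved model for some filtration, and the random sieve of Hawkins is one with
`Q = ∅`.  In every sieved model, almost surely: (1) the number of `p ≤ n` with `p` and `p² + p + 1` chosen is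
asymptotic to `H_Q n / log² n`, `H_Q > 0` the product of the problem restricted to the primes of `Q`; (2) there are
infinitely many such `p`, and if `p_0 < p_1 < ...` are they, `limsup (p_(j+1) - p_j) / log³ p_j = 1 / H_Q`; (3) for
EVERY integer polynomial `f` of degree at least `2` with positive leading coefficient such that no `p ∈ Q` divides
all `r f(r)`, the same holds for the `k` with `k` and `f(k)` chosen, with the constant `C_Q(f)` in place of `H_Q`. -/
theorem Pool.Agent.Results.MP_82233c_nt.PairsSievedModels.result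
    {Ω : Type} [m : MeasurableSpace Ω] (μ : Measure Ω) [IsProbabilityMeasure μ] (A : ℕ → Set Ω)
    (Q : Finset ℕ) (hQ : ∀ p ∈ Q, p.Prime) :
    (IndependentModel μ A Q → ∃ ℱ : Filtration ℕ m, SievedModel μ ℱ A Q) ∧
    ∀ ℱ : Filtration ℕ m,
    (HawkinsSieve μ ℱ A → SievedModel μ ℱ A ∅) ∧
    (SievedModel μ ℱ A Q → 0 < H Q ∧ ∀ᵐ ω ∂μ,
      Tendsto (fun n : ℕ => (P {q | ω ∈ A q} n : ℝ) * Real.log n ^ 2 / n) atTop (𝓝 (H Q)) ∧
      (pairs {q | ω ∈ A q}).Infinite ∧
      (∀ ε : ℝ, 0 < ε →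
        (∀ᶠ j : ℕ in atTop, (member (pairs {q | ω ∈ A q}) (j + 1) : ℝ) - member (pairs {q | ω ∈ A q}) j ≤
          (1 / H Q + ε) * Real.log (member (pairs {q | ω ∈ A q}) j) ^ 3) ∧
        ∃ᶠ j : ℕ in atTop, (1 / H Q - ε) * Real.log (member (pairs {q | ω ∈ A q}) j) ^ 3 ≤
          (member (pairs {q | ω ∈ A q}) (j + 1) : ℝ) - member (pairs {q | ω ∈ A q}) j) ∧
      ∀ f : ℤ[X], 2 ≤ f.natDegree → 0 < f.leadingCoeff → (∀ p ∈ Q, ∃ r : ℤ, ¬ (p : ℤ) ∣ r * f.eval r) →
        0 < const Q f ∧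
        Tendsto (fun n : ℕ => ({k : ℕ | k ≤ n ∧ k ∈ args {q | ω ∈ A q} f}.ncard : ℝ) * Real.log n ^ 2 / n) atTop
          (𝓝 (const Q f)) ∧
        (args {q | ω ∈ A q} f).Infinite ∧ ∀ ε : ℝ, 0 < ε →
          (∀ᶠ j : ℕ in atTop, (member (args {q | ω ∈ A q} f) (j + 1) : ℝ) - member (args {q | ω ∈ A q} f) j ≤
            (1 / const Q f + ε) * Real.log (member (args {q | ω ∈ A q} f) j) ^ 3) ∧
          ∃ᶠ j : ℕ in atTop, (1 / const Q f - ε) * Real.log (member (args {q | ω ∈ A q} f) j) ^ 3 ≤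
            (member (args {q | ω ∈ A q} f) (j + 1) : ℝ) - member (args {q | ω ∈ A q} f) j) := by
  classical
  refine ⟨indep_sieved μ A Q hQ, fun ℱ => ⟨?_, ?_⟩⟩
  · rintro ⟨h1, h2, h3⟩
    have hs : Pool.Agent.N740.HK.HS μ ℱ A := ⟨h1, h2, fun n hn => by
      filter_upwards [h3 n hn] with ω hω
      rw [← prod_inv]
      exact hω⟩
    refine ⟨h1, fun n hn => ?_, ?_⟩
    · obtain ⟨p, hp, _⟩ := hn
      exact absurd hp (Finset.notMem_empty p)
    · filter_upwards [Pool.Agent.N740.HK.hawk_dens hs] with ω hω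
      rw [Finset.prod_empty]
      exact hω.mono_left inf_le_left
  · rintro ⟨hA, hcop, hd⟩
    set W := ∏ p ∈ Q, p with hWdef
    have hW : 0 < W := Finset.prod_pos fun q hq => (hQ q hq).pos
    have hc : ∀ n, Nat.Coprime n W ↔ ∀ p ∈ Q, ¬ p ∣ n := by
      intro n
      rw [hWdef, Nat.coprime_prod_right_iff]
      refine forall₂_congr fun p hp => ?_
      rw [Nat.coprime_comm]
      exact Nat.Prime.coprime_iff_not_dvd (hQ p hp)
    have hgaps := Pool.Agent.N957.SQ.Pr.pair_gaps (μ := μ) (ℱ := ℱ) hA W hW (fun n hn => hcop n (by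
      rw [hc] at hn
      push Not at hn
      exact hn)) (by
      rw [totient_prod Q hQ]
      simp_rw [hc]
      exact hd)
    have hH0 : 0 < H Q := by
      rw [← const_f₀ Q hQ]
      exact const_pos Q hQ f₀ (by rw [f₀_deg]) (f₀_fixed Q hQ)
    refine ⟨hH0, ?_⟩
    filter_upwards [hgaps, bh_final (μ := μ) hA Q hQ hcop hd] with ω g1 g2
    have hall : ∀ f : ℤ[X], 2 ≤ f.natDegree → 0 < f.leadingCoeff → (∀ p ∈ Q, ∃ r : ℤ, ¬ (p : ℤ) ∣ r * f.eval r) →
        0 < const Q f ∧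
        Tendsto (fun n : ℕ => ({k : ℕ | k ≤ n ∧ k ∈ args {q | ω ∈ A q} f}.ncard : ℝ) * Real.log n ^ 2 / n) atTop
          (𝓝 (const Q f)) ∧
        (args {q | ω ∈ A q} f).Infinite ∧ ∀ ε : ℝ, 0 < ε →
          (∀ᶠ j : ℕ in atTop, (member (args {q | ω ∈ A q} f) (j + 1) : ℝ) - member (args {q | ω ∈ A q} f) j ≤
            (1 / const Q f + ε) * Real.log (member (args {q | ω ∈ A q} f) j) ^ 3) ∧
          ∃ᶠ j : ℕ in atTop, (1 / const Q f - ε) * Real.log (member (args {q | ω ∈ A q} f) j) ^ 3 ≤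
            (member (args {q | ω ∈ A q} f) (j + 1) : ℝ) - member (args {q | ω ∈ A q} f) j := by
      intro f h1 h2 h3
      have h4 := const_pos Q hQ f h1 h3
      have h5 := g1 f h1 h2 (by
        rw [hWdef, bh_const Q hQ f h1]
        exact h4)
      rw [hWdef, bh_const Q hQ f h1, ← one_div] at h5
      refine ⟨h4, ?_, h5⟩
      apply values_law
      have h6 := g2 {X, f} (fun g hg => by
        rw [Finset.mem_insert, Finset.mem_singleton] at hg
        rcases hg with rfl | rfl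
        · rw [natDegree_X, leadingCoeff_X]
          norm_num
        · exact ⟨by omega, h2⟩)
      simp only [Finset.card_pair (Pool.Agent.N957.SQ.Pr.X_ne h1), Finset.prod_pair (Pool.Agent.N957.SQ.Pr.X_ne h1),
        natDegree_X, omega_eq' f h1, Nat.cast_one, inv_one, one_mul] at h6
      rw [← div_eq_mul_inv] at h6
      exact h6
    obtain ⟨_, k2, k3, k4⟩ := hall f₀ (by rw [f₀_deg]) (by rw [f₀_lead]; norm_num) (f₀_fixed Q hQ)
    rw [const_f₀ Q hQ, args_f₀] at k4
    rw [const_f₀ Q hQ] at k2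
    rw [args_f₀] at k3
    refine ⟨?_, k3, k4, hall⟩
    refine k2.congr fun n => ?_
    rw [P_eq]
    rfl
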